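import Pool.Agent.W343.FZH.Spec

/-! # Project FZH: eigenvalues of finite windows are dense in the unit disc (PartD) -/

set_option autoImplicit false

namespace Pool.Agent.W923.FZH

open Pool.Agent.W681.FZ Pool.Agent.W343.FZH

lemma hz_sq (hC : PartC) (z : ℂ) (h : HasZero (z ^ 2)) : HasZero z := by
  obtain ⟨b, N, hb, h0⟩ := h
  obtain ⟨B, hB, h1⟩ := hC b (fun _ => 1) hb (fun _ => Or.inl rfl) 0 (N + 1)
  refine ⟨B, 2 * N + 2, hB, ?_⟩
  have h2 := h1 z
  have e : (0 + 2) * (N + 1 + 1) - 1 = 2 * N + 2 + 1 := by omega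
  rw [e] at h2
  rw [h2, zero_add, phi_one, ← pow_two, h0, mul_zero]

lemma hz_pow (hC : PartC) (k : ℕ) : ∀ z : ℂ, HasZero (z ^ (2 ^ k)) → HasZero z := by
  induction k with
  | zero => intro z h; simpa using h
  | succ k ih =>
    intro z h
    refine ih z (hz_sq hC _ ?_)
    rw [← pow_mul, ← pow_succ]
    exact h

lemma cheb (t : ℂ) (n : ℕ) :
    phi (2 * Complex.cos t) (fun _ => 1) n * Complex.sin t = Complex.sin ((n + 1) * t) ∧
    phi (2 * Complex.cos t) (fun _ => 1) (n + 1) * Complex.sin t = Complex.sin ((n + 2) * t) := by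
  induction n with
  | zero =>
    refine ⟨by simp, ?_⟩
    rw [zero_add, phi_one, Nat.cast_zero, zero_add, Complex.sin_two_mul]
    ring
  | succ n ih =>
    obtain ⟨h1, h2⟩ := ih
    refine ⟨?_, ?_⟩
    · rw [h2]
      congr 1
      push_cast
      ring
    · have e0 : phi (2 * Complex.cos t) (fun _ => 1) (n + 1 + 1) =
          2 * Complex.cos t * phi (2 * Complex.cos t) (fun _ => 1) (n + 1) -
            1 * phi (2 * Complex.cos t) (fun _ => 1) n := phi_succ _ _ n
      have e1 : (((n + 1 : ℕ) : ℂ) + 2) * t = (n + 2) * t + t := by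
        push_cast
        ring
      have e2 : ((n : ℂ) + 1) * t = (n + 2) * t - t := by ring
      rw [e0, e1, Complex.sin_add]
      rw [e2, Complex.sin_sub] at h1
      have h3 : (2 * Complex.cos t * phi (2 * Complex.cos t) (fun _ => 1) (n + 1) -
            1 * phi (2 * Complex.cos t) (fun _ => 1) n) * Complex.sin t =
          2 * Complex.cos t * (phi (2 * Complex.cos t) (fun _ => 1) (n + 1) * Complex.sin t) -
            phi (2 * Complex.cos t) (fun _ => 1) n * Complex.sin t := by ring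
      rw [h3, h1, h2]
      ring

lemma hz_cos (N m : ℕ) (hm0 : 0 < m) (hm : m < N + 2) (q : ℝ) (hq : q = (m : ℝ) / ((N : ℝ) + 2)) :
    HasZero ((2 * Real.cos (Real.pi * q) : ℝ) : ℂ) := by
  refine ⟨fun _ => 1, N, fun _ => Or.inl rfl, ?_⟩
  have hN : (0 : ℝ) < (N : ℝ) + 2 := by positivity
  have hm0' : (0 : ℝ) < m := by exact_mod_cast hm0
  have hm' : (m : ℝ) < (N : ℝ) + 2 := by exact_mod_cast hm
  have hq0 : 0 < q := by rw [hq]; positivity
  have hq1 : q < 1 := by rw [hq, div_lt_one hN]; exact hm'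
  set t : ℝ := Real.pi * q with ht
  have h := (cheb (t : ℂ) N).2
  have hs : Real.sin t ≠ 0 := by
    refine (Real.sin_pos_of_pos_of_lt_pi (by positivity) ?_).ne'
    rw [ht]
    nlinarith [Real.pi_pos]
  have h2 : Complex.sin (((N : ℂ) + 2) * (t : ℂ)) = 0 := by
    have e : ((N : ℂ) + 2) * (t : ℂ) = ((m * Real.pi : ℝ) : ℂ) := by
      have e2 : ((N : ℝ) + 2) * t = m * Real.pi := by
        rw [ht, hq]
        field_simp
      rw [← e2]
      push_cast
      ring
    rw [e, ← Complex.ofReal_sin, Real.sin_nat_mul_pi, Complex.ofReal_zero]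
  rw [h2] at h
  have h3 : Complex.sin (t : ℂ) ≠ 0 := by
    rw [← Complex.ofReal_sin]
    exact_mod_cast hs
  have h4 := (mul_eq_zero.1 h).resolve_right h3
  have e5 : ((2 * Real.cos t : ℝ) : ℂ) = 2 * Complex.cos (t : ℂ) := by
    push_cast
    ring
  rw [e5]
  exact h4

lemma dens (r1 r2 : ℝ) (h0 : 0 ≤ r1) (h12 : r1 < r2) (h1 : r2 ≤ 1) :
    ∃ s : ℝ, r1 < s ∧ s < r2 ∧ HasZero (s : ℂ) := by
  have hpi := Real.pi_pos
  set m : ℝ := (r1 + r2) / 2 with hm
  have hm0 : 0 < m := by rw [hm]; linarith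
  have hm1 : m < 1 := by rw [hm]; linarith
  set θ : ℝ := Real.arccos (m / 2) / Real.pi with hθ
  have hcos : Real.cos (Real.pi * θ) = m / 2 := by
    rw [hθ, mul_div_cancel₀ _ hpi.ne']
    exact Real.cos_arccos (by linarith) (by linarith)
  have hθ0 : 0 < θ := by
    rw [hθ]
    have : 0 < Real.arccos (m / 2) := Real.arccos_pos.2 (by linarith)
    positivity
  have hθ1 : θ < 1 := by
    rw [hθ, div_lt_one hpi]
    exact (Real.arccos_lt_pi_div_two.2 (by linarith)).trans (by linarith)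
  have hc : Continuous fun q : ℝ => 2 * Real.cos (Real.pi * q) := by fun_prop
  have hopen : IsOpen {q : ℝ | (0 < q ∧ q < 1) ∧
      (r1 < 2 * Real.cos (Real.pi * q) ∧ 2 * Real.cos (Real.pi * q) < r2)} := by
    have a1 : IsOpen {q : ℝ | 0 < q ∧ q < 1} := isOpen_Ioo
    have a2 : IsOpen {q : ℝ | r1 < 2 * Real.cos (Real.pi * q) ∧
        2 * Real.cos (Real.pi * q) < r2} := isOpen_Ioo.preimage hc
    exact a1.inter a2
  obtain ⟨q, ⟨hq0, hq1⟩, hq2, hq3⟩ := (Rat.denseRange_cast (𝕜 := ℝ)).exists_mem_open hopen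
    ⟨θ, ⟨hθ0, hθ1⟩, by rw [hcos]; linarith, by rw [hcos]; linarith⟩
  refine ⟨_, hq2, hq3, ?_⟩
  have hq0' : 0 < q := by exact_mod_cast hq0
  have hq1' : q < 1 := by exact_mod_cast hq1
  have hnum : 0 < q.num := Rat.num_pos.2 hq0'
  obtain ⟨a, ha⟩ := Int.eq_ofNat_of_zero_le hnum.le
  have hcast : (q : ℝ) = (a : ℝ) / (q.den : ℝ) := by
    rw [Rat.cast_def, ha]
    push_cast
    rfl
  have hden : (0 : ℝ) < q.den := by exact_mod_cast q.den_pos
  have hlt : a < q.den := by
    have h3 : (a : ℝ) < q.den := by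
      rw [hcast, div_lt_one hden] at hq1
      exact hq1
    exact_mod_cast h3
  have ha0 : 0 < a := by
    rw [ha] at hnum
    exact_mod_cast hnum
  obtain ⟨N, hN⟩ : ∃ N, q.den = N + 2 := ⟨q.den - 2, by omega⟩
  refine hz_cos N a ha0 (by omega) _ ?_
  rw [hcast, hN]
  push_cast
  ring

lemma exp_sub_le (x y : ℝ) :
    ‖Complex.exp (x * Complex.I) - Complex.exp (y * Complex.I)‖ ≤ |x - y| := by
  have e : Complex.exp (x * Complex.I) - Complex.exp (y * Complex.I) =
      Complex.exp (y * Complex.I) * (Complex.exp (Complex.I * ((x - y : ℝ) : ℂ)) - 1) := by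
    rw [mul_sub, ← Complex.exp_add, mul_one]
    congr 2
    push_cast
    ring
  rw [e, norm_mul, Complex.norm_exp_ofReal_mul_I, one_mul]
  have := Real.norm_exp_I_mul_ofReal_sub_one_le (x := x - y)
  rwa [Real.norm_eq_abs] at this

theorem partD (hC : PartC) : PartD := by
  intro μ hμ ε hε
  have hpi := Real.pi_pos
  obtain ⟨k, hk⟩ : ∃ k : ℕ, 2 * Real.pi / 2 ^ k < ε / 2 := by
    obtain ⟨k, hk⟩ := exists_nat_gt (2 * Real.pi / (ε / 2))
    refine ⟨k, ?_⟩
    have h1 : (k : ℝ) < 2 ^ k := by exact_mod_cast Nat.lt_two_pow_self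
    rw [div_lt_iff₀ (by positivity)] at hk ⊢
    nlinarith
  set M : ℝ := 2 ^ k with hM
  have hM0 : 0 < M := by positivity
  set j : ℤ := ⌊Complex.arg μ * M / (2 * Real.pi)⌋ with hj
  have hjd : |2 * Real.pi * j / M - Complex.arg μ| < ε / 2 := by
    have h1 := Int.floor_le (Complex.arg μ * M / (2 * Real.pi))
    have h2 := Int.lt_floor_add_one (Complex.arg μ * M / (2 * Real.pi))
    rw [← hj] at h1 h2
    have h3 : Complex.arg μ = 2 * Real.pi / M * (Complex.arg μ * M / (2 * Real.pi)) := by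
      field_simp
    have hc : 0 < 2 * Real.pi / M := by positivity
    have h4 : 2 * Real.pi * j / M = 2 * Real.pi / M * j := by ring
    rw [abs_lt, h4]
    constructor
    · have h5 : 2 * Real.pi / M * (Complex.arg μ * M / (2 * Real.pi)) <
          2 * Real.pi / M * (j + 1) := mul_lt_mul_of_pos_left h2 hc
      rw [← h3] at h5
      linarith
    · have h5 : 2 * Real.pi / M * j ≤ 2 * Real.pi / M * (Complex.arg μ * M / (2 * Real.pi)) :=
        mul_le_mul_of_nonneg_left h1 hc.le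
      rw [← h3] at h5
      linarith
  set r1 : ℝ := ‖μ‖ with hr1
  set r2 : ℝ := min 1 (‖μ‖ + ε / 2) with hr2
  have h10 : 0 ≤ r1 := norm_nonneg _
  have h12 : r1 < r2 := lt_min hμ (by linarith)
  have h21 : r2 ≤ 1 := min_le_left _ _
  have h20 : 0 ≤ r2 := h10.trans h12.le
  obtain ⟨s, hs1, hs2, hs⟩ := dens (r1 ^ (2 ^ k)) (r2 ^ (2 ^ k)) (by positivity)
    (pow_lt_pow_left₀ h12 h10 (by positivity)) (pow_le_one₀ h20 h21)
  have hs0 : 0 ≤ s := (by positivity : (0 : ℝ) ≤ r1 ^ (2 ^ k)).trans hs1.le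
  obtain ⟨ρ, hρ0, hρ⟩ : ∃ ρ : ℝ, 0 ≤ ρ ∧ ρ ^ (2 ^ k) = s :=
    ⟨s ^ (((2 ^ k : ℕ) : ℝ)⁻¹), by positivity, Real.rpow_inv_natCast_pow hs0 (by positivity)⟩
  rw [← hρ] at hs1 hs2
  have hρ1 : r1 < ρ := lt_of_pow_lt_pow_left₀ _ hρ0 hs1
  have hρ2 : ρ < r2 := lt_of_pow_lt_pow_left₀ _ h20 hs2
  set y : ℝ := 2 * Real.pi * j / M with hy
  refine ⟨(ρ : ℂ) * Complex.exp (y * Complex.I), ?_, ?_⟩
  · have hμe : μ = (r1 : ℂ) * Complex.exp (Complex.arg μ * Complex.I) :=
      (Complex.norm_mul_exp_arg_mul_I μ).symm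
    have e : (ρ : ℂ) * Complex.exp (y * Complex.I) - μ =
        ((ρ - r1 : ℝ) : ℂ) * Complex.exp (y * Complex.I) +
          (r1 : ℂ) * (Complex.exp (y * Complex.I) - Complex.exp (Complex.arg μ * Complex.I)) := by
      conv_lhs => rw [hμe]
      push_cast
      ring
    rw [e]
    have h1 : ‖((ρ - r1 : ℝ) : ℂ) * Complex.exp (y * Complex.I)‖ < ε / 2 := by
      rw [norm_mul, Complex.norm_exp_ofReal_mul_I, mul_one, Complex.norm_real, Real.norm_eq_abs,
        abs_of_pos (by linarith)]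
      have : r2 ≤ ‖μ‖ + ε / 2 := min_le_right _ _
      linarith
    have h2 : ‖(r1 : ℂ) * (Complex.exp (y * Complex.I) -
        Complex.exp (Complex.arg μ * Complex.I))‖ ≤ ε / 2 := by
      rw [norm_mul, Complex.norm_real, Real.norm_eq_abs, abs_of_nonneg h10]
      have h3 := exp_sub_le y (Complex.arg μ)
      have h4 : 0 ≤ ‖Complex.exp (y * Complex.I) - Complex.exp (Complex.arg μ * Complex.I)‖ :=
        norm_nonneg _
      nlinarith
    calc _ ≤ _ := norm_add_le _ _
      _ < ε := by linarith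
  · refine hz_pow hC k _ ?_
    have e : ((ρ : ℂ) * Complex.exp (y * Complex.I)) ^ (2 ^ k) = (s : ℂ) := by
      rw [mul_pow, ← Complex.exp_nat_mul]
      have e1 : ((2 ^ k : ℕ) : ℂ) * (y * Complex.I) = j * (2 * Real.pi * Complex.I) := by
        have e2 : ((2 ^ k : ℕ) : ℝ) * y = 2 * Real.pi * j := by
          rw [hy, hM]
          push_cast
          field_simp
        have e3 : ((2 ^ k : ℕ) : ℂ) * (y : ℂ) = 2 * Real.pi * j := by
          exact_mod_cast congrArg (fun u : ℝ => (u : ℂ)) e2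
        rw [← mul_assoc, e3]
        ring
      rw [e1, Complex.exp_int_mul_two_pi_mul_I, mul_one, ← hρ]
      push_cast
      rfl
    rw [e]
    exact hs

end Pool.Agent.W923.FZH

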